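import Pool.Agent.H37.CNP.Stmts

/-!
# Board `cnp`, row DUN (helper2): the fields of row `GAL` are covers
-/

set_option autoImplicit false

namespace Pool.CND

open Finset

/-- a solution of `x ^ n - x = r` with `r` integral is integral at the place -/
private theorem dun_int {k L : Type} [Field k] [Field L] [Algebra k L] (P : Place k L) {x r : L}
    {n : ℕ} (hn : 2 ≤ n) (hr : P.Ge r 0) (h : x ^ n - x = r) : P.Ge x 0 := by
  by_contra hx
  obtain ⟨hx0, hxlt⟩ := P.not_ge.1 hx
  have h1 : P.ord (x ^ n) = n * P.ord x := P.ord_pow hx0 n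
  have hn' : (2 : ℤ) ≤ n := by exact_mod_cast hn
  have h2 : (n : ℤ) * P.ord x + 1 ≤ P.ord x := by nlinarith
  have hlt : P.ord (x ^ n) < 0 := by
    rw [h1]
    nlinarith
  have h3 : P.Ge (-x) (P.ord (x ^ n) + 1) :=
    P.ge_mono (P.ge_neg (P.ge_ord x)) (by rw [h1]; exact h2)
  obtain ⟨h4, h5⟩ := P.ord_add_of_lt (pow_ne_zero n hx0) h3
  rw [← h, sub_eq_add_neg] at hr
  have h6 := (P.ge_iff h4 0).1 hr
  omega

/-- an automorphism which fixes the place and translates an integral element by a constant -/
private theorem dun_const {k L : Type} [Field k] [Field L] [Algebra k L] (P : Place k L)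
    {g : L ≃ₐ[k] L} (hg : Fixes P g) {x : L} (hx : P.Ge x 0) {w : k}
    (h : g x = x + algebraMap k L w) : w = 0 := by
  by_contra hw
  obtain ⟨c, hc⟩ : ∃ c : k, P.Ge (x - algebraMap k L c) 1 := by
    by_cases hx0 : x = 0
    · exact ⟨0, Or.inl (by rw [hx0, map_zero, sub_zero])⟩
    · obtain ⟨c, hc⟩ := P.residue x hx0 ((P.ge_iff hx0 0).1 hx)
      refine ⟨c, ?_⟩
      rcases hc with hc | hc
      · exact Or.inl (by rw [← hc, sub_self])
      · exact Or.inr (by omega)
  have h1 : P.Ge (g (x - algebraMap k L c)) 1 := hg.ge hc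
  have h2 : algebraMap k L w = g (x - algebraMap k L c) - (x - algebraMap k L c) := by
    rw [map_sub, h, AlgEquiv.commutes]
    ring
  have h3 : P.Ge (algebraMap k L w) 1 := by
    rw [h2]
    exact P.ge_sub h1 hc
  have h4 : algebraMap k L w ≠ 0 := by
    rw [Ne, map_eq_zero]
    exact hw
  have h5 := (P.ge_iff h4 1).1 h3
  rw [P.ord_const w hw] at h5
  omega

/-- values of polynomials at integral elements are integral -/
private theorem dun_aeval {k L : Type} [Field k] [Field L] [Algebra k L] (P : Place k L) {x : L}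
    (hx : P.Ge x 0) (r : Polynomial k) : P.Ge (Polynomial.aeval x r) 0 := by
  have hpw : ∀ n : ℕ, P.Ge (x ^ n) 0 := by
    intro n
    induction n with
    | zero => rw [pow_zero]; exact Or.inr (by rw [P.ord_one])
    | succ n ih =>
      rw [pow_succ]
      have := P.ge_mul ih hx
      rwa [add_zero] at this
  induction r using Polynomial.induction_on' with
  | add a b ha hb => rw [map_add]; exact P.ge_add ha hb
  | monomial n a =>
    rw [Polynomial.aeval_monomial]
    have := P.ge_mul (P.ge_const a) (hpw n)
    rwa [add_zero] at this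

theorem dun_thm : S_DUN := by
  intro p k L G _ hck _ _ _ _ A n φ F x Y ρ hp htr hY hA hG hfix
  have : Fact p.Prime := ⟨hp⟩
  have hcL : CharP L p := charP_of_injective_algebraMap (algebraMap k L).injective p
  have hfp : ∀ a : ZMod p, fp k a = 0 → a = 0 := by
    intro a ha
    exact (map_eq_zero (ZMod.castHom (dvd_refl p) k)).1 ha
  -- elements of `A` which translate all the `Y i` by zero
  have hone : ∀ a : A, (∀ i, fp k (Multiplicative.toAdd (φ a) i) = 0) → (a : G) = 1 := by
    intro a h
    have h1 : Multiplicative.toAdd (φ a) = 0 := by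
      funext i
      exact hfp _ (h i)
    have h2 : φ a = 1 := by
      apply Multiplicative.toAdd.injective
      rw [h1]
      rfl
    have h3 : a = 1 := by
      rw [← map_one φ] at h2
      exact φ.injective h2
    rw [h3]
    rfl
  have hadd : ∀ {a b : L}, a + b = a → b = 0 := fun {a b} hab => by
    linear_combination hab
  have hinj : Function.Injective ρ := by
    rw [injective_iff_map_eq_one]
    intro g hg
    by_cases hgA : g ∈ A
    · refine hone ⟨g, hgA⟩ fun i => ?_
      have h1 := (hA ⟨g, hgA⟩).2 i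
      have h2 : ρ ((⟨g, hgA⟩ : A) : G) (Y i) = Y i := by
        show ρ g (Y i) = Y i
        rw [hg]; rfl
      rw [h2] at h1
      have h3 := hadd h1.symm
      rwa [map_eq_zero] at h3
    · obtain ⟨c, hc0, -, hc⟩ := hG g hgA
      rw [hg, AlgEquiv.one_apply] at hc
      have h3 := hadd hc.symm
      rw [map_eq_zero] at h3
      exact absurd h3 hc0
  have htr' : Transcendental k (x ^ p - x) := by
    have h1 : Transcendental k (Polynomial.X ^ p - Polynomial.X : Polynomial k) := by
      refine Polynomial.transcendental _ ?_ ?_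
      · rw [FiniteField.X_pow_card_sub_X_natDegree_eq k hp.one_lt]
        exact hp.ne_zero
      · have h2 : (Polynomial.X ^ p - Polynomial.X : Polynomial k).leadingCoeff = 1 := by
          have h3 := FiniteField.X_pow_card_sub_X_natDegree_eq k hp.one_lt
          rw [Polynomial.leadingCoeff, h3, Polynomial.coeff_sub, Polynomial.coeff_X_pow,
            Polynomial.coeff_X, if_pos rfl, if_neg hp.one_lt.ne, sub_zero]
        rw [h2]
        exact Submonoid.one_mem _
    have h2 := htr.aeval_of_transcendental h1
    simpa using h2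
  have hne : x ^ p - x ≠ 0 := by
    intro h0
    rw [h0] at htr'
    exact htr' isAlgebraic_zero
  refine ⟨hinj, htr', ?_, ?_⟩
  · intro z
    refine ⟨hfix z, ?_⟩
    have hK : IntermediateField.adjoin k {x ^ p - x} ≤ IntermediateField.fixedField ρ.range := by
      rw [IntermediateField.adjoin_simple_le_iff]
      rintro ⟨σ, g, rfl⟩
      show ρ g (x ^ p - x) = x ^ p - x
      by_cases hgA : g ∈ A
      · have h1 : ρ g x = x := (hA ⟨g, hgA⟩).1
        rw [map_sub, map_pow, h1]
      · obtain ⟨c, -, hcp, hc⟩ := hG g hgA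
        rw [map_sub, map_pow, hc, add_pow_char, ← map_pow, hcp]
        ring
    intro hz g
    exact hK hz ⟨ρ g, g, rfl⟩
  · intro Q hQ g hg
    have hx : Q.Ge x 0 := dun_int Q hp.two_le ((Q.ge_iff hne 0).2 hQ) rfl
    by_cases hgA : g ∈ A
    · refine hone ⟨g, hgA⟩ fun i => ?_
      have hYi : Q.Ge (Y i) 0 := dun_int Q hp.two_le (dun_aeval Q hx (F i)) (hY i)
      exact dun_const Q hg hYi ((hA ⟨g, hgA⟩).2 i)
    · obtain ⟨c, hc0, -, hc⟩ := hG g hgA
      exact absurd (dun_const Q hg hx hc) hc0

end Pool.CND
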